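import Mathlib
import Pool.Agent.Helper95.FareyDefs
import Pool.Agent.Helper95.FareyPolygon

/-!
Affirmative answer to Q1 of MP_f9e819_nt.
-/

namespace Pool.Agent.Results.MP_f9e819_nt.SmallFareySequence

open Matrix MatrixGroups Pool.Agent.Helper95.FareyDefs Pool.Agent.Helper95.FareyVec

section
variable (q n : ℕ)

/-- height bound in the tree -/
lemma height_le (hq : q.Prime) (hn : 3 ≤ n) {w : SL2Z} (hw : Edge ((q : ℤ) ^ n) q w)
    (hd : Dir ((q : ℤ) ^ n) q (row w)) : (row w).1 + (row w).2 ≤ (q : ℤ) ^ (n - 1) := by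
  have hp : Prime (q : ℤ) := Nat.prime_iff_prime_int.1 hq
  have hq0 : (0 : ℤ) < q := by exact_mod_cast hq.pos
  have hq2 : (2 : ℤ) ≤ q := by exact_mod_cast hq.two_le
  have hN : (0 : ℤ) < (q : ℤ) ^ n := pow_pos hq0 n
  have hsplit : (q : ℤ) ^ n = q * (q : ℤ) ^ (n - 1) := by
    rw [← pow_succ']
    congr 1
    omega
  have hpos := hw.pos
  rcases hw.height hN hp hq0 hd with h | h
  · rw [hsplit] at h
    exact le_of_mul_le_mul_left h hq0
  · have h2 : 2 * (q : ℤ) ^ n ≤ ((q : ℤ) ^ (n - 1)) ^ 2 := by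
      have h3 : ((q : ℤ) ^ (n - 1)) ^ 2 = (q : ℤ) ^ (n - 2) * (q : ℤ) ^ n := by
        rw [← pow_mul, ← pow_add]
        congr 1
        omega
      rw [h3]
      have h4 : (2 : ℤ) ≤ (q : ℤ) ^ (n - 2) := by
        calc (2 : ℤ) ≤ q := hq2
          _ = (q : ℤ) ^ 1 := (pow_one _).symm
          _ ≤ (q : ℤ) ^ (n - 2) := pow_le_pow_right₀ (by omega) (by omega)
      exact mul_le_mul_of_nonneg_right h4 hN.le
    have h5 : ((row w).1 + (row w).2) ^ 2 ≤ ((q : ℤ) ^ (n - 1)) ^ 2 := h.trans h2
    exact (sq_le_sq₀ (by omega) (pow_pos hq0 _).le).1 h5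

end

/-- **Affirmative answer to Q1.**  For every prime `p` and every `n ≥ 3` the group `Γ₀(pⁿ)` has a
special polygon all of whose cusps in `[0,1]` have denominators at most `p^(n-1)`. -/
theorem result (p n : ℕ) (hp : p.Prime) (hn : 3 ≤ n) :
    ∃ P : SpecialPolygon, P.IsFor (p ^ n) ∧ ∀ i ≤ P.r, P.den i ≤ (p : ℤ) ^ (n - 1) := by
  classical
  have hpZ : Prime (p : ℤ) := Nat.prime_iff_prime_int.1 hp
  have hq0 : (0 : ℤ) < p := by exact_mod_cast hp.pos
  have hq2 : (2 : ℤ) ≤ p := by exact_mod_cast hp.two_le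
  have hN : (4 : ℤ) ≤ (p : ℤ) ^ n := by
    calc (4 : ℤ) ≤ 2 ^ 3 := by norm_num
      _ ≤ (p : ℤ) ^ 3 := pow_le_pow_left₀ (by norm_num) hq2 3
      _ ≤ (p : ℤ) ^ n := pow_le_pow_right₀ (by omega) hn
  set B : ℕ := p ^ (n - 1) with hBdef
  have hBZ : ((p ^ (n - 1) : ℕ) : ℤ) = (p : ℤ) ^ (n - 1) := by push_cast; rfl
  have hB1 : 1 ≤ (p : ℤ) ^ (n - 1) := one_le_pow₀ (by omega)
  have hB : ∀ w, Edge ((p : ℤ) ^ n) p w → Dir ((p : ℤ) ^ n) p (row w) →
      (row w).1 + (row w).2 ≤ (p : ℤ) ^ (n - 1) := fun w hw hd => height_le p n hp hn hw hd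
  set l : List SL2Z := leaves ((p : ℤ) ^ n) p B Lm with hl
  have hL1 : 0 < (row Lm).1 := by rw [row_Lm]; norm_num
  have hL2 : 0 < (row Lm).2 := by rw [row_Lm]; norm_num
  obtain ⟨hchain, ⟨hd0, hhead, hheadL⟩, ⟨tl, hlast, hlastR⟩⟩ :=
    leaves_chain ((p : ℤ) ^ n) p B Lm hL1 hL2
  rw [← hl] at hchain hhead hlast
  have hnodup : l.Nodup := leaves_nodup _ _ _ _ hL1 hL2
  have hspec : ∀ x ∈ l, Edge ((p : ℤ) ^ n) p x ∧ ¬ Dir ((p : ℤ) ^ n) p (row x) :=
    mem_leaves_spec hB B Lm Edge.root (by
      rw [row_Lm]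
      simp only
      rw [hBdef, hBZ]
      omega)
  have hcomplete : ∀ x, Edge ((p : ℤ) ^ n) p x → ¬ Dir ((p : ℤ) ^ n) p (row x) → x ∈ l := by
    intro x hx hxd
    obtain ⟨k, -, hsub⟩ := mem_leaves_complete hB B (by rw [hBdef, hBZ]; omega) hx
    apply hsub
    rw [leaves_neg hxd]
    exact List.mem_singleton.2 rfl
  have hlpos : 0 < l.length := by
    rw [List.length_pos_iff]
    intro h0
    rw [h0] at hhead
    simp at hhead
  have hchain' := List.isChain_iff_getElem.1 hchain
  -- partner
  have hpartner : ∀ i (hi : i < l.length), ¬ Ell ((p : ℤ) ^ n) (row l[i]) →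
      ∃ j, ∃ hj : j < l.length, eqv ((p : ℤ) ^ n) (row l[j]) (flip (row l[i])) ∧
        ¬ Ell ((p : ℤ) ^ n) (row l[j]) := by
    intro i hi hE
    obtain ⟨he, hde⟩ := hspec l[i] (List.getElem_mem hi)
    obtain ⟨g', h1, h2, h3, h4⟩ := he.partner hpZ hN hde hE
    obtain ⟨j, hj, hjg⟩ := List.getElem_of_mem (hcomplete g' h1 h2)
    exact ⟨j, hj, by rw [hjg]; exact h4, by rw [hjg]; exact h3⟩
  have hinj : ∀ i (hi : i < l.length) j (hj : j < l.length),
      eqv ((p : ℤ) ^ n) (row l[i]) (row l[j]) → i = j := by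
    intro i hi j hj h
    have h1 := Edge.unique hpZ (hspec l[i] (List.getElem_mem hi)).1
      (hspec l[j] (List.getElem_mem hj)).1 h
    exact (hnodup.getElem_inj_iff).1 h1
  -- the pairing function
  let pr : ℕ → ℕ := fun i => if h : ∃ hi : i < l.length, ¬ Ell ((p : ℤ) ^ n) (row l[i]) then
    Classical.choose (hpartner i h.1 h.2) else i
  have hpr_odd : ∀ i (hi : i < l.length), Ell ((p : ℤ) ^ n) (row l[i]) → pr i = i := by
    intro i hi hE
    have : ¬ ∃ hi : i < l.length, ¬ Ell ((p : ℤ) ^ n) (row l[i]) := by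
      rintro ⟨_, h⟩
      exact h hE
    exact dif_neg this
  have hpr_spec : ∀ i (hi : i < l.length), ¬ Ell ((p : ℤ) ^ n) (row l[i]) →
      ∃ hj : pr i < l.length, eqv ((p : ℤ) ^ n) (row l[pr i]) (flip (row l[i])) ∧
        ¬ Ell ((p : ℤ) ^ n) (row l[pr i]) := by
    intro i hi hE
    have h : ∃ hi : i < l.length, ¬ Ell ((p : ℤ) ^ n) (row l[i]) := ⟨hi, hE⟩
    have h1 : pr i = Classical.choose (hpartner i h.1 h.2) := dif_pos h
    have h2 := Classical.choose_spec (hpartner i h.1 h.2)
    simp only [h1]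
    exact h2
  have hpr_lt : ∀ i < l.length, pr i < l.length := by
    intro i hi
    by_cases hE : Ell ((p : ℤ) ^ n) (row l[i])
    · rw [hpr_odd i hi hE]; exact hi
    · exact (hpr_spec i hi hE).1
  have hpr_pr : ∀ i < l.length, pr (pr i) = i := by
    intro i hi
    by_cases hE : Ell ((p : ℤ) ^ n) (row l[i])
    · rw [hpr_odd i hi hE, hpr_odd i hi hE]
    · obtain ⟨hj, h1, h2⟩ := hpr_spec i hi hE
      obtain ⟨hk, h3, -⟩ := hpr_spec (pr i) hj h2
      apply hinj _ hk _ hi
      have h4 := eqv_flip.2 h1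
      rw [eqv_flip2_right] at h4
      exact eqv_trans hpZ (all_flip.2 (all_row hpZ _)) h3 h4
  -- cusps
  let nm : ℕ → ℤ := fun i => if h : i < l.length then (top l[i]).2 else 1
  let dn : ℕ → ℤ := fun i => if h : i < l.length then (row l[i]).2 else 1
  have hnm : ∀ i (h : i < l.length), nm i = (top l[i]).2 := fun i h => dif_pos h
  have hdn : ∀ i (h : i < l.length), dn i = (row l[i]).2 := fun i h => dif_pos h
  have hnm1 : ∀ i (h : ¬ i < l.length), nm i = 1 := fun i h => dif_neg h
  have hdn1 : ∀ i (h : ¬ i < l.length), dn i = 1 := fun i h => dif_neg h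
  have hzero : l[0] = hd0 := by
    rw [List.head?_eq_getElem?, List.getElem?_eq_getElem hlpos, Option.some_inj] at hhead
    exact hhead
  have hend : l[l.length - 1] = tl := by
    rw [List.getLast?_eq_getElem?, List.getElem?_eq_getElem (by omega), Option.some_inj] at hlast
    exact hlast
  -- right end of an interval
  have hright : ∀ i (h : i < l.length), nm (i + 1) = (top l[i]).1 ∧ dn (i + 1) = (row l[i]).1 := by
    intro i h
    by_cases h1 : i + 1 < l.length
    · have := hchain' i h1
      rw [hnm _ h1, hdn _ h1]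
      exact ⟨this.1, this.2.1⟩
    · rw [hnm1 _ h1, hdn1 _ h1]
      have hi : i = l.length - 1 := by omega
      subst hi
      rw [hend, hlastR.1, hlastR.2, top_Lm, row_Lm]
      exact ⟨rfl, rfl⟩
  have hposr : ∀ i (h : i < l.length), 0 < (row l[i]).1 ∧ 0 < (row l[i]).2 := fun i h =>
    ((hspec l[i] (List.getElem_mem h)).1).pos
  let P : SpecialPolygon :=
    { r := l.length
      num := nm
      den := dn
      den_pos := by
        intro i hi
        by_cases h : i < l.length
        · rw [hdn i h]; exact (hposr i h).2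
        · rw [hdn1 i h]; norm_num
      first_num := by
        rw [hnm 0 hlpos, hzero, hheadL.1, top_Lm]
      first_den := by
        rw [hdn 0 hlpos, hzero, hheadL.2, row_Lm]
      last_num := hnm1 _ (lt_irrefl _)
      last_den := hdn1 _ (lt_irrefl _)
      neighbour := by
        intro i hi
        rw [(hright i hi).1, (hright i hi).2, hnm i hi, hdn i hi]
        exact det_eq _
      odd := fun i => ∃ hi : i < l.length, Ell ((p : ℤ) ^ n) (row l[i])
      pair := pr
      pair_lt := hpr_lt
      pair_pair := hpr_pr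
      pair_odd := fun i hi h => hpr_odd i hi h.2 }
  have hedge : ∀ i (hi : i < l.length), P.edge i hi = l[i] := by
    intro i hi
    apply Subtype.ext
    have h1 := (hright i hi).1
    have h2 := (hright i hi).2
    have h3 := hnm i hi
    have h4 := hdn i hi
    show !![nm (i + 1), nm i; dn (i + 1), dn i] = (l[i]).1
    rw [h1, h2, h3, h4]
    ext a b
    fin_cases a <;> fin_cases b <;> rfl
  refine ⟨P, ?_, ?_⟩
  · -- generation
    set G : Subgroup SL2Z := Subgroup.closure (insert (-1) P.sidePairings) with hG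
    have hcast : ((p ^ n : ℕ) : ℤ) = (p : ℤ) ^ n := by push_cast; rfl
    have hle : G ≤ CongruenceSubgroup.Gamma0 (p ^ n) := by
      rw [hG, Subgroup.closure_le]
      rintro g (rfl | hg)
      · show (-1 : SL2Z) ∈ CongruenceSubgroup.Gamma0 (p ^ n)
        rw [mem_Gamma0_iff']
        have e : row (-1 : SL2Z) = (0, -1) := by decide
        rw [e]
        unfold eqv
        simp
      · rcases hg with rfl | ⟨i, hi, hodd, rfl⟩ | ⟨i, hi, hodd, rfl⟩
        · show (ModularGroup.T : SL2Z) ∈ CongruenceSubgroup.Gamma0 (p ^ n)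
          rw [mem_Gamma0_iff']
          have e : row (ModularGroup.T : SL2Z) = (0, 1) := by decide
          rw [e]
          exact eqv_refl _ _
        · show P.edge i hi * rho * (P.edge i hi)⁻¹ ∈ CongruenceSubgroup.Gamma0 (p ^ n)
          have hi' : i < l.length := hi
          rw [mem_Gamma0_iff, hcast, hedge i hi']
          have e : rho = Rm := rfl
          rw [e, row_mul_R]
          obtain ⟨_, hE⟩ := hodd
          rw [ell_iff] at hE
          exact eqv_symm hE
        · show P.edge (P.pair i) (P.pair_lt i hi) * ModularGroup.S * (P.edge i hi)⁻¹ ∈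
            CongruenceSubgroup.Gamma0 (p ^ n)
          have hi' : i < l.length := hi
          have hE : ¬ Ell ((p : ℤ) ^ n) (row l[i]) := fun h => hodd ⟨hi', h⟩
          obtain ⟨hj, h1, -⟩ := hpr_spec i hi' hE
          have h5 : P.edge (P.pair i) (P.pair_lt i hi) = l[pr i] := hedge (pr i) hj
          rw [mem_Gamma0_iff, hcast, hedge i hi', h5, row_mul_S]
          have h4 := eqv_flip.2 h1
          rwa [eqv_flip2_right] at h4
    have hGe : G = CongruenceSubgroup.Gamma0 (p ^ n) := by
      apply le_antisymm hle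
      apply generation hpZ hN G
      · exact Subgroup.subset_closure (Set.mem_insert _ _)
      · exact Subgroup.subset_closure (Set.mem_insert_of_mem _ (Or.inl rfl))
      · exact hle
      · intro w hw hE
        have hnd : ¬ Dir ((p : ℤ) ^ n) p (row w) := fun h => h.1 hE
        obtain ⟨i, hi, hiw⟩ := List.getElem_of_mem (hcomplete w hw hnd)
        apply Subgroup.subset_closure
        apply Set.mem_insert_of_mem
        right; left
        refine ⟨i, hi, ⟨hi, by rw [hiw]; exact hE⟩, ?_⟩
        have h6 : P.edge i hi = w := by rw [hedge i hi, hiw]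
        rw [h6]
        rfl
      · intro w hw hnd hE
        obtain ⟨i, hi, hiw⟩ := List.getElem_of_mem (hcomplete w hw hnd)
        have hE' : ¬ Ell ((p : ℤ) ^ n) (row l[i]) := by rw [hiw]; exact hE
        obtain ⟨hj, h1, -⟩ := hpr_spec i hi hE'
        refine ⟨l[pr i], (hspec _ (List.getElem_mem hj)).1, ?_⟩
        apply Subgroup.subset_closure
        apply Set.mem_insert_of_mem
        right; right
        refine ⟨i, hi, ?_, ?_⟩
        · rintro ⟨_, h⟩
          exact hE' h
        · have h6 : P.edge i hi = w := by rw [hedge i hi, hiw]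
          have h7 : P.edge (P.pair i) (P.pair_lt i hi) = l[pr i] := hedge (pr i) hj
          rw [h6, h7]
    unfold SpecialPolygon.IsFor
    rw [← hGe, hG, MonoidHom.map_closure, Set.image_insert_eq]
    have hone : (QuotientGroup.mk' (Subgroup.center SL(2, ℤ))) (-1) = 1 := by
      rw [QuotientGroup.mk'_apply, QuotientGroup.eq_one_iff]
      rw [Subgroup.mem_center_iff]
      intro g
      rw [mul_neg, neg_mul, mul_one, one_mul]
    rw [hone, Subgroup.closure_insert_one]
  · intro i hi
    show dn i ≤ (p : ℤ) ^ (n - 1)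
    by_cases h : i < l.length
    · rw [hdn i h]
      have he := (hspec l[i] (List.getElem_mem h)).1
      generalize l[i] = w at he
      cases he with
      | root => rw [row_Lm]; exact hB1
      | @left u hu hd =>
        have h1 := hB u hu hd
        have h2 := hu.pos
        rw [row_mul_L]
        simp only
        omega
      | @right u hu hd =>
        have h1 := hB u hu hd
        rw [row_mul_T]
        exact h1
    · rw [hdn1 i h]; exact hB1

end Pool.Agent.Results.MP_f9e819_nt.SmallFareySequence
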